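import Pool.Agent.helper36.MP.SpecC

set_option autoImplicit false

open Complex Metric Set Filter Topology MeasureTheory

noncomputable section

namespace MPS

/-- the local form of `BB` at a zero of the numerator. -/
theorem PRONG_loc (hTP : TP_stmt) {k : ℕ} [NeZero k] (b g : ZMod k → ℂ) (ζ : ℂ)
    (hb : Function.Injective b) (hζ : (Ppoly b g).eval ζ = 0) :
    1 ≤ (Ppoly b g).rootMultiplicity ζ ∧ ∃ (B₁ : ℂ → ℂ) (r₀ : ℝ), 0 < r₀ ∧
      DifferentiableOn ℂ B₁ (ball ζ r₀) ∧ B₁ ζ ≠ 0 ∧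
      ∀ z ∈ ball ζ r₀, BB b g z = (z - ζ) ^ (Ppoly b g).rootMultiplicity ζ * B₁ z := by
  obtain ⟨h1, h2, -⟩ := hTP k b g hb
  have hP0 : Ppoly b g ≠ 0 := by
    intro h
    refine h2 0 ?_
    rw [h, Polynomial.eval_zero]
  have hζb : ∀ i, ζ ≠ b i := by
    rintro i rfl
    exact h2 i hζ
  refine ⟨(Polynomial.rootMultiplicity_pos hP0).2 hζ, ?_⟩
  set m := (Ppoly b g).rootMultiplicity ζ with hm
  set P₁ := (Ppoly b g) /ₘ (Polynomial.X - Polynomial.C ζ) ^ m with hP₁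
  have hfac : (Polynomial.X - Polynomial.C ζ) ^ m * P₁ = Ppoly b g :=
    Polynomial.pow_mul_divByMonic_rootMultiplicity_eq _ _
  have hP₁ζ : P₁.eval ζ ≠ 0 := Polynomial.eval_divByMonic_pow_rootMultiplicity_ne_zero ζ hP0
  -- a ball without poles
  have hopen : IsOpen (⋂ i, ({b i}ᶜ : Set ℂ)) := isOpen_iInter_of_finite fun i => isOpen_compl_singleton
  have hmem : ζ ∈ ⋂ i, ({b i}ᶜ : Set ℂ) := by
    rw [mem_iInter]
    exact fun i => hζb i
  obtain ⟨r₀, hr₀, hball⟩ := Metric.isOpen_iff.1 hopen ζ hmem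
  have hne : ∀ z ∈ ball ζ r₀, ∀ i, z ≠ b i := fun z hz i => (mem_iInter.1 (hball hz)) i
  have hprod : ∀ z ∈ ball ζ r₀, ∏ i, (z - b i) ^ 2 ≠ 0 := fun z hz =>
    Finset.prod_ne_zero_iff.2 fun i _ => pow_ne_zero _ (sub_ne_zero.2 (hne z hz i))
  refine ⟨fun z => P₁.eval z / ∏ i, (z - b i) ^ 2, r₀, hr₀, ?_, ?_, ?_⟩
  · intro z hz
    refine DifferentiableAt.differentiableWithinAt ?_
    refine P₁.differentiableAt.div ?_ (hprod z hz)
    fun_prop
  · exact div_ne_zero hP₁ζ (hprod ζ (mem_ball_self hr₀))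
  · intro z hz
    have h3 := h1 z (hne z hz)
    rw [← hfac, Polynomial.eval_mul, Polynomial.eval_pow, Polynomial.eval_sub, Polynomial.eval_X,
      Polynomial.eval_C] at h3
    rw [← mul_div_assoc, eq_div_iff (hprod z hz)]
    exact h3

/-- the behaviour along one ray. -/
theorem PRONG_ray (hPRC : PRC_stmt) {k : ℕ} [NeZero k] (b g : ZMod k → ℂ) (ζ : ℂ) (m : ℕ)
    (hm : 1 ≤ m) (B₁ : ℂ → ℂ) (r : ℝ) (hr : 0 < r)
    (hB : ∀ z ∈ ball ζ r, BB b g z = (z - ζ) ^ m * B₁ z) (Q : ℂ → ℂ)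
    (hQd : DifferentiableOn ℂ Q (ball ζ r))
    (hQ2 : ∀ z ∈ ball ζ r, deriv Q z ^ 2 = 4 * Q z * BB b g z)
    (hQ0 : ∀ z ∈ ball ζ r, Q z = 0 ↔ z = ζ) (χ : ℂ → ℂ) (Ω : Set ℂ) (T y : ℝ) (hΩ : IsOpen Ω)
    (hχ : IsNat b g χ Ω) (hmem : ∀ t : ℝ, t < T → (t : ℂ) + y * I ∈ Ω)
    (hlim : Tendsto (fun t : ℝ => χ ((t : ℂ) + y * I)) (𝓝[<] T) (𝓝 ζ)) :
    ∃ a < T, ∀ t ∈ Ioo a T, χ ((t : ℂ) + y * I) ∈ ball ζ r ∧
      Q (χ ((t : ℂ) + y * I)) = ((t - T : ℝ) : ℂ) ^ 2 ∧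
      deriv Q (χ ((t : ℂ) + y * I)) * deriv χ ((t : ℂ) + y * I) = 2 * ((t - T : ℝ) : ℂ) := by
  have hζr : ζ ∈ ball ζ r := mem_ball_self hr
  have hev : ∀ᶠ t : ℝ in 𝓝[<] T, χ ((t : ℂ) + y * I) ∈ ball ζ r :=
    hlim (ball_mem_nhds ζ hr)
  obtain ⟨a, haT, ha⟩ := (mem_nhdsLT_iff_exists_Ioo_subset).1 hev
  have haT' : a < T := haT
  have hin : ∀ t ∈ Ioo a T, χ ((t : ℂ) + y * I) ∈ ball ζ r := fun t ht => ha ht
  have hγd : ∀ t < T, HasDerivAt (fun t : ℝ => χ ((t : ℂ) + y * I)) (deriv χ ((t : ℂ) + y * I)) t := by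
    intro t ht
    have h1 : HasDerivAt χ (deriv χ ((t : ℂ) + y * I)) ((t : ℂ) + y * I) :=
      (hχ.diff.differentiableAt (hΩ.mem_nhds (hmem t ht))).hasDerivAt
    have h2 : HasDerivAt (fun t : ℝ => (t : ℂ) + y * I) 1 t := by
      have := (Complex.ofRealCLM.hasDerivAt (x := t)).add_const ((y : ℂ) * I)
      simpa using this
    have := h1.comp_of_eq t h2 rfl
    rw [mul_one] at this
    exact this
  have hqd : ∀ t ∈ Ioo a T, HasDerivAt (fun t : ℝ => Q (χ ((t : ℂ) + y * I)))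
      (deriv Q (χ ((t : ℂ) + y * I)) * deriv χ ((t : ℂ) + y * I)) t := by
    intro t ht
    have h1 : HasDerivAt Q (deriv Q (χ ((t : ℂ) + y * I))) (χ ((t : ℂ) + y * I)) :=
      (hQd.differentiableAt (isOpen_ball.mem_nhds (hin t ht))).hasDerivAt
    exact h1.comp_of_eq t (hγd t ht.2) rfl
  have hγc : ContinuousOn (fun t : ℝ => χ ((t : ℂ) + y * I)) (Ioo a T) := fun t ht =>
    (hγd t ht.2).continuousAt.continuousWithinAt
  have hqc : ContinuousOn (fun t : ℝ => deriv Q (χ ((t : ℂ) + y * I)) * deriv χ ((t : ℂ) + y * I))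
      (Ioo a T) := by
    refine ContinuousOn.mul ?_ ?_
    · exact (hQd.deriv isOpen_ball).continuousOn.comp hγc hin
    · refine (hχ.diff.deriv hΩ).continuousOn.comp ?_ fun t ht => hmem t ht.2
      fun_prop
  have hBne : ∀ t < T, BB b g (χ ((t : ℂ) + y * I)) ≠ 0 := by
    intro t ht h0
    have := hχ.eq _ (hmem t ht)
    rw [h0, mul_zero] at this
    exact zero_ne_one this
  have hBζ : BB b g ζ = 0 := by
    rw [hB ζ hζr, sub_self, zero_pow (by omega), zero_mul]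
  have hγζ : ∀ t < T, χ ((t : ℂ) + y * I) ≠ ζ := by
    intro t ht h
    apply hBne t ht
    rw [h, hBζ]
  have hqe : ∀ t ∈ Ioo a T,
      (deriv Q (χ ((t : ℂ) + y * I)) * deriv χ ((t : ℂ) + y * I)) ^ 2 =
        4 * Q (χ ((t : ℂ) + y * I)) ∧ Q (χ ((t : ℂ) + y * I)) ≠ 0 := by
    intro t ht
    refine ⟨?_, fun h => hγζ t ht.2 ((hQ0 _ (hin t ht)).1 h)⟩
    rw [mul_pow, hQ2 _ (hin t ht)]
    have := hχ.eq _ (hmem t ht.2)
    linear_combination 4 * Q (χ ((t : ℂ) + y * I)) * this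
  have hql : Tendsto (fun t : ℝ => Q (χ ((t : ℂ) + y * I))) (𝓝[<] T) (𝓝 0) := by
    have h1 : ContinuousAt Q ζ := (hQd.differentiableAt (isOpen_ball.mem_nhds hζr)).continuousAt
    have h2 : Q ζ = 0 := (hQ0 ζ hζr).2 rfl
    have := h1.tendsto.comp hlim
    rw [h2] at this
    exact this
  have := hPRC a T _ _ haT' hqd hqc hqe hql
  exact ⟨a, haT', fun t ht => ⟨hin t ht, this t ht⟩⟩

/-- two rays through the same point with the same derivative are the same. -/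
theorem PRONG_inj (hNU : NU_stmt) (hNI : NI_stmt) {k : ℕ} [NeZero k] (b g : ZMod k → ℂ)
    (ψ : ZMod k → ℂ → ℂ) (hb : Function.Injective b) (hPN : ∀ i, PN b g i (ψ i) 1)
    (i i' : ZMod k) (χ χ' : ℂ → ℂ) (Ω Ω' : Set ℂ) (u u' y y' : ℝ) (hΩ : IsOpen Ω)
    (hΩ' : IsOpen Ω') (hL : ∀ w ∈ Ω, ∀ s : ℝ, 0 ≤ s → w - s ∈ Ω)
    (hL' : ∀ w ∈ Ω', ∀ s : ℝ, 0 ≤ s → w - s ∈ Ω') (hχ : IsNat b g χ Ω) (hχ' : IsNat b g χ' Ω')
    (he : EqOn χ (hat (ψ i)) (HP 0)) (he' : EqOn χ' (hat (ψ i')) (HP 0))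
    (hw : (u : ℂ) + y * I ∈ Ω) (hw' : (u' : ℂ) + y' * I ∈ Ω')
    (hv : χ ((u : ℂ) + y * I) = χ' ((u' : ℂ) + y' * I))
    (hd : deriv χ ((u : ℂ) + y * I) = deriv χ' ((u' : ℂ) + y' * I))
    (hy : 0 ≤ y ∧ y < 2 * Real.pi) (hy' : 0 ≤ y' ∧ y' < 2 * Real.pi) : i = i' ∧ y = y' := by
  set w := (u : ℂ) + y * I with hwd
  set w' := (u' : ℂ) + y' * I with hwd'
  obtain ⟨σ, hσ, hσd, -, hseg⟩ := hNU k b g χ χ' Ω Ω' w w' hΩ hΩ' hχ hχ' hw hw' hv
  have hd0 : deriv χ' w' ≠ 0 := by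
    intro h0
    have := hχ'.eq w' hw'
    rw [h0] at this
    norm_num at this
  have hσ1 : σ = 1 := by
    rcases hσ with h | h
    · exact h
    · exfalso
      rw [hd, h] at hσd
      apply hd0
      have : deriv χ' w' = 0 := by linear_combination (1 / 2 : ℂ) * hσd
      exact this
  subst hσ1
  have hleft : ∀ s : ℝ, 0 ≤ s → χ (w - s) = χ' (w' - s) := by
    intro s hs
    have := (hseg (-(s : ℂ)) (fun t ht => by
      have h1 : 0 ≤ t * s := mul_nonneg ht.1 hs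
      constructor
      · have := hL w hw (t * s) h1
        push_cast at this
        rw [show w + (t : ℂ) * -(s : ℂ) = w - (t : ℂ) * s by ring]
        exact this
      · have := hL' w' hw' (t * s) h1
        push_cast at this
        rw [show w' + 1 * ((t : ℂ) * -(s : ℂ)) = w' - (t : ℂ) * s by ring]
        exact this)).1
    rw [show w + -(s : ℂ) = w - s by ring, show w' + 1 * -(s : ℂ) = w' - s by ring] at this
    exact this
  have hwre : w.re = u := by simp [hwd]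
  have hwre' : w'.re = u' := by simp [hwd']
  have hfar : ∀ s : ℝ, 0 ≤ s → u < s → u' < s → ψ i (exp (w - s)) = ψ i' (exp (w' - s)) := by
    intro s hs h1 h2
    have h3 : w - s ∈ HP 0 := by
      show (w - s).re < -0
      rw [sub_re, hwre, ofReal_re]
      linarith
    have h4 : w' - s ∈ HP 0 := by
      show (w' - s).re < -0
      rw [sub_re, hwre', ofReal_re]
      linarith
    have h5 := hleft s hs
    rw [he h3, he' h4] at h5
    exact h5
  -- the limit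
  have hexp : ∀ z : ℂ, Tendsto (fun s : ℝ => exp (z - s)) atTop (𝓝 0) := by
    intro z
    have h1 : (fun s : ℝ => exp (z - s)) = fun s : ℝ => exp z * ((Real.exp (-s) : ℝ) : ℂ) := by
      funext s
      rw [Complex.ofReal_exp, ← Complex.exp_add]
      congr 1
      push_cast
      ring
    rw [h1]
    have h2 : Tendsto (fun s : ℝ => ((Real.exp (-s) : ℝ) : ℂ)) atTop (𝓝 ((0 : ℝ) : ℂ)) :=
      (Complex.continuous_ofReal.tendsto 0).comp Real.tendsto_exp_neg_atTop_nhds_zero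
    have := h2.const_mul (exp z)
    simpa using this
  have hψc : ∀ j, Tendsto (ψ j) (𝓝 0) (𝓝 (b j)) := by
    intro j
    have h1 : ContinuousAt (ψ j) 0 :=
      ((hPN j).diff.differentiableAt (ball_mem_nhds 0 one_pos)).continuousAt
    have := h1.tendsto
    rwa [(hPN j).val] at this
  have hii : i = i' := by
    apply hb
    have h1 := (hψc i).comp (hexp w)
    have h2 := (hψc i').comp (hexp w')
    refine tendsto_nhds_unique_of_eventuallyEq h1 h2 ?_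
    filter_upwards [eventually_ge_atTop 0, eventually_gt_atTop u, eventually_gt_atTop u'] with s a1 a2 a3
    exact hfar s a1 a2 a3
  refine ⟨hii, ?_⟩
  subst hii
  set s : ℝ := max 0 (max u u') + 1 with hs
  have hs0 : 0 ≤ s := by
    have := le_max_left 0 (max u u')
    linarith
  have hsu : u < s := by
    have := le_trans (le_max_left u u') (le_max_right 0 (max u u'))
    linarith
  have hsu' : u' < s := by
    have := le_trans (le_max_right u u') (le_max_right 0 (max u u'))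
    linarith
  have hball : ∀ z : ℂ, z.re < s → exp (z - s) ∈ ball (0 : ℂ) 1 := by
    intro z hz
    rw [mem_ball_zero_iff, Complex.norm_exp, Real.exp_lt_one_iff, sub_re, ofReal_re]
    linarith
  have h1 := hNI k b g i (ψ i) 1 (hPN i) (hball w (by rw [hwre]; exact hsu))
    (hball w' (by rw [hwre']; exact hsu')) (hfar s hs0 hsu hsu')
  obtain ⟨n, hn⟩ := Complex.exp_eq_exp_iff_exists_int.1 h1
  have him := congrArg Complex.im hn
  have hwim : w.im = y := by simp [hwd]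
  have hwim' : w'.im = y' := by simp [hwd']
  have hval : (w' - s + n * (2 * Real.pi * I)).im = y' + n * (2 * Real.pi) := by
    have h0 : ((n : ℂ) * (2 * Real.pi * I)) = ((n * (2 * Real.pi) : ℝ) : ℂ) * I := by
      push_cast
      ring
    rw [add_im, sub_im, hwim', ofReal_im, h0, Complex.im_ofReal_mul, I_im]
    ring
  rw [hval, sub_im, hwim, ofReal_im, sub_zero] at him
  have hpi := Real.pi_pos
  have hn1 : (n : ℝ) < 1 := by
    by_contra hc
    push Not at hc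
    have : 2 * Real.pi ≤ n * (2 * Real.pi) := by nlinarith
    linarith [hy.2, hy'.1]
  have hn2 : (-1 : ℝ) < n := by
    by_contra hc
    push Not at hc
    have : n * (2 * Real.pi) ≤ -(2 * Real.pi) := by nlinarith
    linarith [hy.1, hy'.2]
  have hn0 : n = 0 := by
    have a1 : n < 1 := by exact_mod_cast hn1
    have a2 : -1 < n := by exact_mod_cast hn2
    omega
  rw [hn0] at him
  simpa using him

theorem PRONG (hTP : TP_stmt) (hPRQ : PRQ_stmt) (hPRC : PRC_stmt) (hNU : NU_stmt)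
    (hNI : NI_stmt) : PRONG_stmt := by
  intro k _ b g ψ ζ F hb hPN hζ hF
  obtain ⟨hm, B₁, r₀, hr₀, hB₁d, hB₁0, hB⟩ := PRONG_loc hTP b g ζ hb hζ
  set m := (Ppoly b g).rootMultiplicity ζ with hmd
  obtain ⟨r, hr, hrr, Q, hQd, hQ2, hQ0, hQF⟩ := hPRQ (BB b g) B₁ ζ m r₀ hr₀ hB₁d hB₁0 hB
  have hEnds : ∀ p : F, ∃ (T a : ℝ) (χ : ℂ → ℂ) (Ω : Set ℂ), IsOpen Ω ∧
      (∀ w ∈ Ω, ∀ s : ℝ, 0 ≤ s → w - s ∈ Ω) ∧ IsNat b g χ Ω ∧
      EqOn χ (hat (ψ p.1.1)) (HP 0) ∧ (∀ t : ℝ, t < T → (t : ℂ) + p.1.2 * I ∈ Ω) ∧ a < T ∧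
      ∀ t ∈ Ioo a T, χ ((t : ℂ) + p.1.2 * I) ∈ ball ζ r ∧
        Q (χ ((t : ℂ) + p.1.2 * I)) = ((t - T : ℝ) : ℂ) ^ 2 ∧
        deriv Q (χ ((t : ℂ) + p.1.2 * I)) * deriv χ ((t : ℂ) + p.1.2 * I) =
          2 * ((t - T : ℝ) : ℂ) := by
    intro p
    obtain ⟨-, -, T, -, χ, Ω, hΩ, -, hL, hmem, hχ, he, hlim⟩ := hF p.1 p.2
    obtain ⟨a, haT, ha⟩ := PRONG_ray hPRC b g ζ m hm B₁ r hr
      (fun z hz => hB z (ball_subset_ball hrr hz)) Q hQd hQ2 hQ0 χ Ω T p.1.2 hΩ hχ hmem hlim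
    exact ⟨T, a, χ, Ω, hΩ, hL, hχ, he, hmem, haT, ha⟩
  choose T a χ Ω hΩ hL hχ he hmem haT ha using hEnds
  rcases F.eq_empty_or_nonempty with hFe | hFne
  · rw [hFe, Finset.card_empty]
    exact Nat.zero_le _
  obtain ⟨p₀, -, hp₀⟩ := (Finset.univ : Finset F).exists_min_image (fun p => T p - a p)
    (by
      obtain ⟨p, hp⟩ := hFne
      exact ⟨⟨p, hp⟩, Finset.mem_univ _⟩)
  set s : ℝ := (T p₀ - a p₀) / 2 with hs
  have hs0 : 0 < s := by
    have := haT p₀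
    rw [hs]
    linarith
  have hsa : ∀ p : F, T p - s ∈ Ioo (a p) (T p) := by
    intro p
    have h1 := hp₀ p (Finset.mem_univ _)
    have h2 := haT p₀
    constructor
    · rw [hs]; linarith
    · linarith
  let z : F → ℂ := fun p => χ p (((T p - s : ℝ) : ℂ) + p.1.2 * I)
  have hzinj : Function.Injective z := by
    intro p p' hpp
    obtain ⟨-, h2, h3⟩ := ha p (T p - s) (hsa p)
    obtain ⟨-, h2', h3'⟩ := ha p' (T p' - s) (hsa p')
    have hval : (2 * ((T p - s - T p : ℝ) : ℂ)) = 2 * ((T p' - s - T p' : ℝ) : ℂ) := by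
      push_cast
      ring
    have hne : (2 * ((T p - s - T p : ℝ) : ℂ)) ≠ 0 := by
      have : ((T p - s - T p : ℝ) : ℂ) ≠ 0 := by
        rw [Complex.ofReal_ne_zero]
        linarith
      exact mul_ne_zero two_ne_zero this
    have hzz : χ p (((T p - s : ℝ) : ℂ) + p.1.2 * I) =
      χ p' (((T p' - s : ℝ) : ℂ) + p'.1.2 * I) := hpp
    have hQne : deriv Q (χ p' (((T p' - s : ℝ) : ℂ) + p'.1.2 * I)) ≠ 0 := by
      intro h0
      rw [h0, zero_mul] at h3'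
      rw [hval, ← h3'] at hne
      exact hne rfl
    have hder : deriv (χ p) (((T p - s : ℝ) : ℂ) + p.1.2 * I) =
        deriv (χ p') (((T p' - s : ℝ) : ℂ) + p'.1.2 * I) := by
      rw [hzz] at h3
      refine mul_left_cancel₀ hQne ?_
      rw [h3, h3', hval]
    obtain ⟨hi, hy⟩ := PRONG_inj hNU hNI b g ψ hb hPN p.1.1 p'.1.1 (χ p) (χ p') (Ω p) (Ω p')
      (T p - s) (T p' - s) p.1.2 p'.1.2 (hΩ p) (hΩ p') (hL p) (hL p') (hχ p) (hχ p') (he p) (he p')
      (hmem p _ (hsa p).2) (hmem p' _ (hsa p').2) hzz hder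
      ⟨(hF p.1 p.2).1, (hF p.1 p.2).2.1⟩ ⟨(hF p'.1 p'.2).1, (hF p'.1 p'.2).2.1⟩
    exact Subtype.ext (Prod.ext hi hy)
  have hcard := hQF ((s : ℂ) ^ 2) (Finset.univ.image z) (by
    intro w hw
    obtain ⟨p, -, rfl⟩ := Finset.mem_image.1 hw
    obtain ⟨h1, h2, -⟩ := ha p (T p - s) (hsa p)
    refine ⟨h1, ?_⟩
    show Q (χ p (((T p - s : ℝ) : ℂ) + p.1.2 * I)) = _
    rw [h2]
    push_cast
    ring)
  rw [Finset.card_image_of_injective _ hzinj, Finset.card_univ, Fintype.card_coe] at hcard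
  exact hcard

end MPS
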