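import Pool.Agent.helper36.MP.SpecQ

set_option autoImplicit false

open Complex Metric Set Filter Topology MeasureTheory

noncomputable section

namespace MPS

/-- inverse of a map close to a translation. -/
theorem ROT_inv (x κ v₀ : ℂ) (s s' m t : ℝ) (Φ σ : ℂ → ℂ) (hs' : 0 < s') (hss : s' < s)
    (hΦ : ∀ w ∈ ball x s, HasDerivAt Φ (σ w) w) (hσ : ∀ w ∈ ball x s, ‖σ w - 1‖ ≤ 1 / 100)
    (hE : ∀ w ∈ ball x s, ‖Φ w - w - κ‖ ≤ m)
    (hm : ‖x + κ - v₀‖ + m + t ≤ 99 / 100 * s') :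
    ∃ h : ℂ → ℂ, ∀ v ∈ ball v₀ t, h v ∈ ball x s ∧ Φ (h v) = v ∧ HasDerivAt h (σ (h v))⁻¹ v := by
  have hx : x ∈ ball x s := mem_ball_self (hs'.trans hss)
  have happ : ApproximatesLinearOn Φ ((ContinuousLinearEquiv.refl ℂ ℂ : ℂ ≃L[ℂ] ℂ) : ℂ →L[ℂ] ℂ)
      (ball x s) (1 / 100) := by
    intro a ha b hb
    have hd : ∀ w ∈ ball x s, DifferentiableAt ℂ (fun w => Φ w - w) w := fun w hw =>
      (hΦ w hw).differentiableAt.sub differentiableAt_id
    have hbd : ∀ w ∈ ball x s, ‖deriv (fun w => Φ w - w) w‖ ≤ 1 / 100 := by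
      intro w hw
      have : deriv (fun w => Φ w - w) w = σ w - 1 := ((hΦ w hw).sub (hasDerivAt_id w)).deriv
      rw [this]
      exact hσ w hw
    have := Convex.norm_image_sub_le_of_norm_deriv_le hd hbd (convex_ball x s) hb ha
    simp only [ContinuousLinearEquiv.coe_refl, ContinuousLinearMap.coe_id', id_eq]
    calc ‖Φ a - Φ b - (a - b)‖ = ‖Φ a - a - (Φ b - b)‖ := by congr 1; ring
      _ ≤ 1 / 100 * ‖a - b‖ := this
      _ = _ := by norm_num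
  have hN : ‖(((ContinuousLinearEquiv.refl ℂ ℂ : ℂ ≃L[ℂ] ℂ).symm : ℂ ≃L[ℂ] ℂ) : ℂ →L[ℂ] ℂ)‖₊ = 1 := by
    simp
  have hc : Subsingleton ℂ ∨ (1 / 100 : NNReal) <
      ‖(((ContinuousLinearEquiv.refl ℂ ℂ : ℂ ≃L[ℂ] ℂ).symm : ℂ ≃L[ℂ] ℂ) : ℂ →L[ℂ] ℂ)‖₊⁻¹ := by
    right
    rw [hN, inv_one]
    rw [← NNReal.coe_lt_coe]
    push_cast
    norm_num
  set e := happ.toOpenPartialHomeomorph Φ (ball x s) hc isOpen_ball with he
  have htar : ball v₀ t ⊆ e.target := by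
    have h1 := happ.closedBall_subset_target hc isOpen_ball hs'.le
      (closedBall_subset_ball hss : closedBall x s' ⊆ ball x s)
    refine Subset.trans ?_ h1
    intro v hv
    rw [mem_closedBall, dist_eq_norm]
    rw [mem_ball, dist_eq_norm] at hv
    have h2 : ‖v - Φ x‖ ≤ ‖v - v₀‖ + ‖x + κ - v₀‖ + ‖Φ x - x - κ‖ := by
      calc ‖v - Φ x‖ = ‖(v - v₀) - (x + κ - v₀) - (Φ x - x - κ)‖ := by congr 1; ring
        _ ≤ ‖(v - v₀) - (x + κ - v₀)‖ + ‖Φ x - x - κ‖ := norm_sub_le _ _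
        _ ≤ _ := by gcongr; exact norm_sub_le _ _
    have h3 := hE x hx
    rw [hN]
    push_cast
    linarith
  refine ⟨e.symm, fun v hv => ?_⟩
  have hvt := htar hv
  have h1 : e.symm v ∈ ball x s := e.map_target hvt
  have h2 : Φ (e.symm v) = v := e.right_inv hvt
  refine ⟨h1, h2, ?_⟩
  refine e.hasDerivAt_symm hvt ?_ (hΦ _ h1)
  intro h0
  have := hσ _ h1
  rw [h0] at this
  norm_num at this

/-- the square root near `1`. -/
theorem ROT_sqrt (D : Set ℂ) (τ : ℂ → ℂ) (hD : IsOpen D) (hτ : DifferentiableOn ℂ τ D)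
    (h1 : ∀ w ∈ D, ‖τ w - 1‖ ≤ 1 / 100) :
    ∃ σ : ℂ → ℂ, DifferentiableOn ℂ σ D ∧ ∀ w ∈ D, σ w ^ 2 = τ w ∧ ‖σ w - 1‖ ≤ ‖τ w - 1‖ := by
  have hre : ∀ w ∈ D, 0 < (τ w).re := by
    intro w hw
    have := abs_re_le_norm (τ w - 1)
    have h2 := h1 w hw
    rw [sub_re, one_re] at this
    have := neg_abs_le ((τ w).re - 1)
    linarith
  refine ⟨fun w => exp (1 / 2 * log (τ w)), ?_, fun w hw => ?_⟩
  · intro w hw
    have hd : DifferentiableWithinAt ℂ τ D w := hτ w hw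
    exact (((hd.clog (Or.inl (hre w hw))).const_mul _).cexp)
  · have h0 : τ w ≠ 0 := by
      intro h
      have := hre w hw
      rw [h] at this
      simp at this
    have hsq : exp (1 / 2 * log (τ w)) ^ 2 = τ w := by
      rw [← Complex.exp_nat_mul]
      rw [show ((2 : ℕ) : ℂ) * (1 / 2 * log (τ w)) = log (τ w) by push_cast; ring]
      exact Complex.exp_log h0
    refine ⟨hsq, ?_⟩
    have hs : 0 ≤ (exp (1 / 2 * log (τ w))).re := by
      rw [Complex.exp_re]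
      refine mul_nonneg (Real.exp_pos _).le (Real.cos_nonneg_of_mem_Icc ?_)
      have him : (1 / 2 * log (τ w)).im = 1 / 2 * (τ w).arg := by
        simp [Complex.mul_im, Complex.log_im]
      rw [him]
      have := Complex.abs_arg_le_pi (τ w)
      rw [abs_le] at this
      constructor <;> linarith [this.1, this.2]
    have hfac : τ w - 1 = (exp (1 / 2 * log (τ w)) - 1) * (exp (1 / 2 * log (τ w)) + 1) :=
      calc τ w - 1 = exp (1 / 2 * log (τ w)) ^ 2 - 1 := by rw [hsq]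
        _ = _ := by ring
    have hge : 1 ≤ ‖exp (1 / 2 * log (τ w)) + 1‖ := by
      have := re_le_norm (exp (1 / 2 * log (τ w)) + 1)
      rw [add_re, one_re] at this
      linarith
    rw [hfac, norm_mul]
    exact le_mul_of_one_le_right (norm_nonneg _) hge

/-- gluing of natural maps. -/
theorem ROT_glue {k : ℕ} [NeZero k] (b g : ZMod k → ℂ) (χ χ₁ : ℂ → ℂ) (V : Set ℂ) (hV : IsOpen V)
    (h0 : IsNat b g χ (HP 0)) (h1 : IsNat b g χ₁ V) (heq : ∀ v ∈ V, v.re < 0 → χ₁ v = χ v) :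
    ∃ χ' : ℂ → ℂ, IsNat b g χ' (HP 0 ∪ V) ∧ EqOn χ' χ (HP 0) := by
  have hHP : IsOpen (HP 0) := isOpen_lt continuous_re continuous_const
  have hmem : ∀ v : ℂ, v ∈ HP 0 ↔ v.re < 0 := fun v => by simp [HP]
  classical
  let χ' : ℂ → ℂ := fun v => if v.re < 0 then χ v else χ₁ v
  have hA : ∀ v ∈ HP 0, χ' v = χ v := fun v hv => if_pos ((hmem v).1 hv)
  have hB : ∀ v ∈ V, χ' v = χ₁ v := by
    intro v hv
    by_cases h : v.re < 0
    · rw [hA v ((hmem v).2 h), heq v hv h]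
    · exact if_neg h
  have hA' : ∀ v ∈ HP 0, χ' =ᶠ[𝓝 v] χ := fun v hv =>
    Filter.eventuallyEq_of_mem (hHP.mem_nhds hv) hA
  have hB' : ∀ v ∈ V, χ' =ᶠ[𝓝 v] χ₁ := fun v hv =>
    Filter.eventuallyEq_of_mem (hV.mem_nhds hv) hB
  refine ⟨χ', ⟨?_, ?_, ?_⟩, hA⟩
  · intro v hv
    rcases hv with hv | hv
    · exact (((h0.diff.differentiableAt (hHP.mem_nhds hv)).congr_of_eventuallyEq
        (hA' v hv))).differentiableWithinAt
    · exact (((h1.diff.differentiableAt (hV.mem_nhds hv)).congr_of_eventuallyEq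
        (hB' v hv))).differentiableWithinAt
  · intro v hv j
    rcases hv with hv | hv
    · rw [hA v hv]; exact h0.av v hv j
    · rw [hB v hv]; exact h1.av v hv j
  · intro v hv
    rcases hv with hv | hv
    · rw [(hA' v hv).deriv_eq, hA v hv]; exact h0.eq v hv
    · rw [(hB' v hv).deriv_eq, hB v hv]; exact h1.eq v hv

theorem ROT (hPT2 : PT2_stmt) (hP2H : P2H_stmt) (hP2A : P2A_stmt) (hLEA : LEA_stmt)
    (hINC : INC1_stmt) : ROT_stmt := by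
  intro n k _ c b g ψ R ε y ρ₁ r χ G1 ps G H hε
  obtain ⟨hsu2, hsys, hQ⟩ := H
  have hH : H2 n k c b g ψ R ε y ρ₁ χ G1 ps (fun _ => r) G k := ⟨hsu2, hsys, hQ⟩
  have hρ : 0 < ρ₁ := hsu2.r0
  have hρ1 : 16 * ρ₁ ≤ 1 := hsu2.r1
  have hr34 : 3 * ρ₁ / 4 < r := hsys.low 0 (Nat.zero_le _)
  have hk1 : 1 ≤ k := le_trans (by norm_num) hsu2.su.hk
  have hρ2 : 0 < ρ₁ ^ 2 := by positivity
  set x : ℂ := (y : ℂ) * I with hx
  set δ : ℝ := ρ₁ / 64 with hδ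
  have hδ0 : 0 < δ := by positivity
  -- Phase 1
  obtain ⟨hH1, -, -, -⟩ := hP2H n k c b g ψ R ε y ρ₁ χ G1 ps hsu2
  have hεδ : ε ≤ δ ^ 2 / 1024 := by
    refine hε.trans ?_
    rw [hδ, div_pow, div_div]
    gcongr
    norm_num
  obtain ⟨Φ₁, κ, hΦ₁d, hΦ₁, hΦ₁v, hκ, -⟩ := hINC n k c b g ψ R ε δ (fun _ => 3 * δ) G1 k
    (hH1 k le_rfl) hk1 hεδ
  have hκ' : κ = -Complex.log (rho n b) := hκ rfl
  obtain ⟨hagree, -, -, hLS, -, -, -⟩ := hP2A n k c b g ψ R ε y ρ₁ χ G1 ps (fun _ => r) G k hH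
  have hagree' : ∀ w ∈ ball x r, w.re < -(3 * δ) → G k w = GW G1 k w := hagree k le_rfl
  obtain ⟨hav, -, -, hτd, -, -⟩ := hLEA n k c b g G (ball x r) k hsu2.su.hn hsu2.su.cyc
    isOpen_ball (hLS k le_rfl)
  -- the disc
  set D : Set ℂ := ball x (5 * ρ₁ / 8) with hD
  have hDr : D ⊆ ball x r := ball_subset_ball (by linarith)
  have hτ1 : ∀ w ∈ D, ‖tau b g G k w - 1‖ ≤ 1 / 100 := by
    intro w hw
    rw [hD, mem_ball, dist_eq_norm] at hw
    obtain ⟨hb1, hb2⟩ := hPT2 n k c b g ψ R ε y ρ₁ χ G1 ps (fun _ => r) G k hH k hk1 le_rfl w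
      (ρ₁ / 8) (by positivity) (by
        show ‖w - x‖ + ρ₁ / 8 ≤ r
        linarith)
    refine (hb2.trans hb1).trans ?_
    calc 1300 * ε / (ρ₁ / 8) ^ 2 ≤ 1300 * (ρ₁ ^ 2 / 10 ^ 7) / (ρ₁ / 8) ^ 2 := by gcongr
      _ = 1300 * 64 / 10 ^ 7 := by field_simp; norm_num
      _ ≤ 1 / 100 := by norm_num
  obtain ⟨σ, hσd, hσ⟩ := ROT_sqrt D (tau b g G k) isOpen_ball ((hτd k le_rfl).mono hDr) hτ1
  have hσ1 : ∀ w ∈ D, ‖σ w - 1‖ ≤ 1 / 100 := fun w hw => ((hσ w hw).2).trans (hτ1 w hw)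
  -- the base point
  set w₀ : ℂ := x - (ρ₁ / 4 : ℝ) with hw₀
  have hxre : x.re = 0 := by simp [hx]
  have hw₀re : w₀.re = -(ρ₁ / 4) := by
    rw [hw₀, sub_re, hxre, ofReal_re]; ring
  have hw₀D : w₀ ∈ D := by
    rw [hD, mem_ball, dist_eq_norm, hw₀]
    rw [show x - ((ρ₁ / 4 : ℝ) : ℂ) - x = -((ρ₁ / 4 : ℝ) : ℂ) by ring, norm_neg, Complex.norm_real,
      Real.norm_of_nonneg (by positivity)]
    linarith
  have hex : Complex.IsExactOn σ D := hσd.isExactOn_ball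
  obtain ⟨Φ, hΦ0, hΦd⟩ := hex.with_val_at w₀ (Φ₁ w₀)
  -- agreement with Φ₁
  have hHPo : ∀ a : ℝ, IsOpen (HP a) := fun a => isOpen_lt continuous_re continuous_const
  have hHPc : ∀ a : ℝ, Convex ℝ (HP a) := fun a => convex_halfSpace_re_lt _
  have hUo : IsOpen (D ∩ HP (3 * δ + δ / 8)) := isOpen_ball.inter (hHPo _)
  have hUc : Convex ℝ (D ∩ HP (3 * δ + δ / 8)) := (convex_ball _ _).inter (hHPc _)
  have hw₀U : w₀ ∈ D ∩ HP (3 * δ + δ / 8) := by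
    refine ⟨hw₀D, ?_⟩
    show w₀.re < _
    rw [hw₀re, hδ]
    linarith
  have htau : ∀ w ∈ D ∩ HP (3 * δ + δ / 8), tau b g G k w = tau b g (GW G1) k w := by
    intro w hw
    have hev : G k =ᶠ[𝓝 w] GW G1 k := by
      refine Filter.eventuallyEq_of_mem (hUo.mem_nhds hw) fun z hz => ?_
      refine hagree' z (hDr hz.1) ?_
      have : z.re < -(3 * δ + δ / 8) := hz.2
      linarith
    unfold tau
    rw [hev.deriv_eq, hev.eq_of_nhds]
  have hsame : EqOn Φ Φ₁ (D ∩ HP (3 * δ + δ / 8)) := by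
    refine hUo.eqOn_of_deriv_eq hUc.isPreconnected
      (fun w hw => (hΦd w hw.1).differentiableAt.differentiableWithinAt)
      (hΦ₁d.mono inter_subset_right) ?_ hw₀U hΦ0
    intro w hw
    rw [(hΦd w hw.1).deriv]
    obtain ⟨-, h2, h3⟩ := hΦ₁ w hw.2
    have h4 : σ w ^ 2 = deriv Φ₁ w ^ 2 := by rw [(hσ w hw.1).1, h2, htau w hw]
    rcases sq_eq_sq_iff_eq_or_eq_neg.1 h4 with h5 | h5
    · exact h5
    · exfalso
      have h6 := hσ1 w hw.1
      have h7 : ‖(-2 : ℂ)‖ ≤ 1 / 100 + 1 / 4 := by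
        calc ‖(-2 : ℂ)‖ = ‖(σ w - 1) + (deriv Φ₁ w - 1)‖ := by rw [h5]; congr 1; ring
          _ ≤ ‖σ w - 1‖ + ‖deriv Φ₁ w - 1‖ := norm_add_le _ _
          _ ≤ _ := add_le_add h6 h3
      rw [norm_neg] at h7
      norm_num at h7
  -- the bound
  have hE : ∀ w ∈ D, ‖Φ w - w - κ‖ ≤ ρ₁ / 64 := by
    intro w hw
    have hd : ∀ w ∈ D, DifferentiableAt ℂ (fun w => Φ w - w) w := fun w hw =>
      (hΦd w hw).differentiableAt.sub differentiableAt_id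
    have hbd : ∀ w ∈ D, ‖deriv (fun w => Φ w - w) w‖ ≤ 1 / 100 := by
      intro w hw
      have : deriv (fun w => Φ w - w) w = σ w - 1 := ((hΦd w hw).sub (hasDerivAt_id w)).deriv
      rw [this]
      exact hσ1 w hw
    have h1 := Convex.norm_image_sub_le_of_norm_deriv_le hd hbd (convex_ball _ _) hw₀D hw
    have h2 : ‖Φ w₀ - w₀ - κ‖ ≤ δ / 32 := by
      rw [hΦ0]
      exact (hΦ₁ w₀ hw₀U.2).1
    have h3 : ‖w - w₀‖ ≤ 7 * ρ₁ / 8 := by
      rw [hD, mem_ball, dist_eq_norm] at hw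
      calc ‖w - w₀‖ = ‖(w - x) + ((ρ₁ / 4 : ℝ) : ℂ)‖ := by rw [hw₀]; congr 1; ring
        _ ≤ ‖w - x‖ + ‖((ρ₁ / 4 : ℝ) : ℂ)‖ := norm_add_le _ _
        _ ≤ 5 * ρ₁ / 8 + ρ₁ / 4 := by
          rw [Complex.norm_real, Real.norm_of_nonneg (by positivity)]
          linarith
        _ = _ := by ring
    calc ‖Φ w - w - κ‖ = ‖(Φ w - w - (Φ w₀ - w₀)) + (Φ w₀ - w₀ - κ)‖ := by congr 1; ring
      _ ≤ ‖Φ w - w - (Φ w₀ - w₀)‖ + ‖Φ w₀ - w₀ - κ‖ := norm_add_le _ _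
      _ ≤ 1 / 100 * (7 * ρ₁ / 8) + δ / 32 := by
        refine add_le_add (h1.trans ?_) h2
        gcongr
      _ ≤ ρ₁ / 64 := by rw [hδ]; linarith
  -- the logarithm of the multiplier
  set θ : ℝ := (rho n b).arg with hθ
  set Λ : ℝ := Real.log ‖rho n b‖ with hΛ
  have hΛ0 : 0 ≤ Λ := (Real.log_pos hsu2.su.rho1).le
  have hΛ1 : Λ ≤ ρ₁ / 64 := by
    have h1 := hsu2.su.hE
    have h2 : 0 ≤ ∫ z in ball (0 : ℂ) R, ‖er n c b g z‖ := by positivity
    have h3 : Λ ≤ 2 * Real.pi * Λ := by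
      have := Real.pi_gt_three
      nlinarith
    have h4 : ρ₁ ^ 2 / 10 ^ 7 ≤ ρ₁ / 64 := by nlinarith
    linarith
  have hκ2 : κ = -((Λ : ℂ) + θ * I) := by
    rw [hκ', hΛ, hθ]
    congr 1
  set v₀ : ℂ := ((y - θ : ℝ) : ℂ) * I with hv₀
  have hxκ : x + κ - v₀ = -(Λ : ℂ) := by
    rw [hκ2, hv₀, hx]
    push_cast
    ring
  obtain ⟨h, hh⟩ := ROT_inv x κ v₀ (5 * ρ₁ / 8) (ρ₁ / 2) (ρ₁ / 64) (ρ₁ / 4) Φ σ (by positivity)
    (by linarith) hΦd hσ1 hE (by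
      rw [hxκ, norm_neg, Complex.norm_real, Real.norm_of_nonneg hΛ0]
      linarith)
  -- the new piece
  have hGd : ∀ w ∈ D, HasDerivAt (G k) (deriv (G k) w) w := fun w hw =>
    ((hsys.diff k le_rfl).differentiableAt (isOpen_ball.mem_nhds (hDr hw))).hasDerivAt
  have hχ₁d : ∀ v ∈ ball v₀ (ρ₁ / 4), HasDerivAt (fun v => G k (h v))
      (deriv (G k) (h v) * (σ (h v))⁻¹) v := by
    intro v hv
    obtain ⟨hv1, hv2, hv3⟩ := hh v hv
    exact (hGd (h v) hv1).comp v hv3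
  have hnat1 : IsNat b g (fun v => G k (h v)) (ball v₀ (ρ₁ / 4)) := by
    refine ⟨fun v hv => (hχ₁d v hv).differentiableAt.differentiableWithinAt, ?_, ?_⟩
    · intro v hv j
      exact hav k le_rfl (h v) (hDr (hh v hv).1) j
    · intro v hv
      have hv1 := (hh v hv).1
      rw [(hχ₁d v hv).deriv, mul_pow, inv_pow, (hσ (h v) hv1).1]
      have h0 : tau b g G k (h v) ≠ 0 := by
        intro h0
        have := hτ1 (h v) hv1
        rw [h0] at this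
        norm_num at this
      have h2 : tau b g G k (h v) = deriv (G k) (h v) ^ 2 * BB b g (G k (h v)) := rfl
      field_simp
      rw [h2]
  have hnat0 : IsNat b g χ (HP 0) :=
    ⟨hsu2.nat.diff.mono subset_union_left, fun w hw => hsu2.nat.av w (Or.inl hw),
      fun w hw => hsu2.nat.eq w (Or.inl hw)⟩
  -- agreement on the overlap
  set V : Set ℂ := ball v₀ (ρ₁ / 4) with hV
  have hv₀re : v₀.re = 0 := by simp [hv₀]
  set v₁ : ℂ := v₀ - (ρ₁ / 8 : ℝ) with hv₁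
  have hv₁re : v₁.re = -(ρ₁ / 8) := by
    rw [hv₁, sub_re, hv₀re, ofReal_re]; ring
  have hball : ∀ v ∈ ball v₁ (ρ₁ / 64), v ∈ V ∩ HP 0 ∧ v.re < -(ρ₁ / 8) + ρ₁ / 64 := by
    intro v hv
    rw [mem_ball, dist_eq_norm] at hv
    have h1 : v.re < -(ρ₁ / 8) + ρ₁ / 64 := by
      have := (re_le_norm (v - v₁))
      rw [sub_re, hv₁re] at this
      linarith
    refine ⟨⟨?_, ?_⟩, h1⟩
    · rw [hV, mem_ball, dist_eq_norm]
      calc ‖v - v₀‖ = ‖(v - v₁) - ((ρ₁ / 8 : ℝ) : ℂ)‖ := by rw [hv₁]; congr 1; ring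
        _ ≤ ‖v - v₁‖ + ‖((ρ₁ / 8 : ℝ) : ℂ)‖ := norm_sub_le _ _
        _ < ρ₁ / 4 := by
          rw [Complex.norm_real, Real.norm_of_nonneg (by positivity)]
          linarith
    · show v.re < -0
      linarith
  have hloc : ∀ v ∈ ball v₁ (ρ₁ / 64), G k (h v) = χ v := by
    intro v hv
    obtain ⟨⟨hvV, hvH⟩, hvre⟩ := hball v hv
    obtain ⟨hv1, hv2, -⟩ := hh v hvV
    have hre : (h v).re < -(3 * δ + δ / 4) := by
      have h1 := hE (h v) hv1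
      rw [hv2] at h1
      have h2 : (v - h v - κ).re = v.re - (h v).re + Λ := by
        rw [hκ2]
        simp
      have h3 := (neg_le_of_abs_le (abs_re_le_norm (v - h v - κ)))
      rw [h2] at h3
      rw [hδ]
      linarith
    have hHP1 : h v ∈ HP (3 * δ + δ / 4) := hre
    have hHP2 : h v ∈ D ∩ HP (3 * δ + δ / 8) := ⟨hv1, by
      show (h v).re < _
      linarith⟩
    obtain ⟨hneg, hval⟩ := hΦ₁v (h v) hHP1
    have h5 : Φ₁ (h v) = v := by rw [← hsame hHP2, hv2]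
    rw [h5] at hval hneg
    rw [hagree' (h v) (hDr hv1) (by linarith), ← hval]
    have h6 : (-((k : ℕ) : ZMod k)) = 0 := by rw [ZMod.natCast_self, neg_zero]
    rw [h6]
    exact (hsu2.ext (by show v.re < -0; linarith)).symm
  have hoverlap : ∀ v ∈ V, v.re < 0 → G k (h v) = χ v := by
    have hOo : IsOpen (V ∩ HP 0) := isOpen_ball.inter (hHPo 0)
    have hOc : Convex ℝ (V ∩ HP 0) := (convex_ball _ _).inter (hHPc 0)
    have han1 : AnalyticOnNhd ℂ (fun v => G k (h v)) (V ∩ HP 0) :=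
      (hnat1.diff.mono inter_subset_left).analyticOnNhd hOo
    have han2 : AnalyticOnNhd ℂ χ (V ∩ HP 0) :=
      (hnat0.diff.mono inter_subset_right).analyticOnNhd hOo
    have hv₁m : v₁ ∈ V ∩ HP 0 := (hball v₁ (mem_ball_self (by positivity))).1
    have hev : (fun v => G k (h v)) =ᶠ[𝓝 v₁] χ :=
      Filter.eventuallyEq_of_mem (ball_mem_nhds v₁ (by positivity : 0 < ρ₁ / 64)) hloc
    have := han1.eqOn_of_preconnected_of_eventuallyEq han2 hOc.isPreconnected hv₁m hev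
    intro v hv hvre
    exact this ⟨hv, by show v.re < -0; linarith⟩
  obtain ⟨χ', hχ', hχe⟩ := ROT_glue b g χ (fun v => G k (h v)) V isOpen_ball hnat0 hnat1 hoverlap
  exact ⟨χ', hχ', fun v hv => (hχe hv).trans (hsu2.ext hv)⟩

end MPS
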